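import Pool.Agent.Helper64.PQ.Goals

/-!
# Project PQ (MP_2b9d24_gt), packet C2: betweenness of cusps is preserved
-/

set_option autoImplicit false

open Topology Filter Set Metric UpperHalfPlane
open scoped MatrixGroups

namespace Pool.Agent.Helper56.PQ

open Pool.Agent.Helper64.PQ

lemma im_inv (g : SL(2, ℝ)) (z : ℍ) (hc : g 1 0 ≠ 0) :
    (g⁻¹ • z).im = z.im / ((g 1 0) ^ 2 * ‖(z : ℂ) - (rr g : ℂ)‖ ^ 2) := by
  have hdet : g 0 0 * g 1 1 - g 0 1 * g 1 0 = 1 := by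
    have := g.det_coe
    rwa [Matrix.det_fin_two] at this
  have h1 : (g⁻¹ • z).im = ((g⁻¹ • z : ℍ) : ℂ).im := rfl
  have hrr : g 1 0 * rr g = g 0 0 := by
    unfold rr
    field_simp
  have e00 : (g⁻¹ : SL(2, ℝ)) 0 0 = g 1 1 := by
    rw [Matrix.SpecialLinearGroup.coe_inv, Matrix.adjugate_fin_two]; simp
  have e01 : (g⁻¹ : SL(2, ℝ)) 0 1 = - g 0 1 := by
    rw [Matrix.SpecialLinearGroup.coe_inv, Matrix.adjugate_fin_two]; simp
  have e10 : (g⁻¹ : SL(2, ℝ)) 1 0 = - g 1 0 := by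
    rw [Matrix.SpecialLinearGroup.coe_inv, Matrix.adjugate_fin_two]; simp
  have e11 : (g⁻¹ : SL(2, ℝ)) 1 1 = g 0 0 := by
    rw [Matrix.SpecialLinearGroup.coe_inv, Matrix.adjugate_fin_two]; simp
  rw [h1, coe_specialLinearGroup_apply, e00, e01, e10, e11, Complex.div_im]
  have hden : Complex.normSq ((((algebraMap ℝ ℝ) (-g 1 0) : ℝ) : ℂ) * (z : ℂ) +
      (((algebraMap ℝ ℝ) (g 0 0) : ℝ) : ℂ)) = (g 1 0) ^ 2 * ‖(z : ℂ) - (rr g : ℂ)‖ ^ 2 := by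
    rw [← Complex.normSq_eq_norm_sq, Complex.normSq_apply, Complex.normSq_apply]
    simp
    rw [← hrr]
    ring
  rw [hden, ← sub_div]
  congr 1
  simp
  linear_combination z.im * hdet

lemma lim_csp (F : ℍ → ℍ) (g g' : SL(2, ℝ)) (hc : g 1 0 ≠ 0) (hc' : g' 1 0 ≠ 0)
    (h : Csp F g g') (ε : ℝ) (hε : 0 < ε) :
    ∃ δ : ℝ, 0 < δ ∧ ∀ z : ℍ, z.re = rr g → z.im < δ → ‖(F z : ℂ) - (rr g' : ℂ)‖ < ε := by
  obtain ⟨k, hk, hh⟩ := h (max 1 (1 / ((g' 1 0) ^ 2 * ε))) (le_max_left _ _)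
  have hc2 : 0 < (g 1 0) ^ 2 := by positivity
  have hc2' : 0 < (g' 1 0) ^ 2 := by positivity
  have hk0 : 0 < k := by linarith
  refine ⟨1 / ((g 1 0) ^ 2 * k), by positivity, fun z hz hz' => ?_⟩
  have hzi : 0 < z.im := z.im_pos
  have h1 := hh (g⁻¹ • z) (by
    rw [im_inv g z hc]
    have h2 : ‖(z : ℂ) - (rr g : ℂ)‖ ^ 2 = z.im ^ 2 := by
      rw [← Complex.normSq_eq_norm_sq, Complex.normSq_apply]
      simp [hz]
      ring
    rw [h2, lt_div_iff₀ (by positivity)]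
    rw [lt_div_iff₀ (by positivity)] at hz'
    nlinarith)
  rw [smul_inv_smul, im_inv g' _ hc'] at h1
  have hFi : 0 < (F z).im := (F z).im_pos
  have ht : (F z).im ≤ ‖(F z : ℂ) - (rr g' : ℂ)‖ := by
    have := Complex.abs_im_le_norm ((F z : ℂ) - (rr g' : ℂ))
    simp only [Complex.sub_im, Complex.ofReal_im, sub_zero] at this
    exact (le_abs_self _).trans this
  set t := ‖(F z : ℂ) - (rr g' : ℂ)‖ with ht_def
  have ht0 : 0 < t := lt_of_lt_of_le hFi ht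
  have h3 : 1 / ((g' 1 0) ^ 2 * ε) < (F z).im / ((g' 1 0) ^ 2 * t ^ 2) :=
    lt_of_le_of_lt (le_max_right _ _) h1
  rw [div_lt_div_iff₀ (by positivity) (by positivity), one_mul] at h3
  have h4 : (g' 1 0) ^ 2 * t ^ 2 < t * ((g' 1 0) ^ 2 * ε) :=
    lt_of_lt_of_le h3 (mul_le_mul_of_nonneg_right ht (by positivity))
  have h5 : ((g' 1 0) ^ 2 * t) * t < ((g' 1 0) ^ 2 * t) * ε := by nlinarith
  exact lt_of_mul_lt_mul_left h5 (by positivity)

/-- `F` extended to a function on the complex numbers. -/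
noncomputable def GG (F : ℍ → ℍ) (w : ℂ) : ℂ := (F (ofComplex w) : ℂ)

lemma GG_im_pos (F : ℍ → ℍ) (w : ℂ) : 0 < (GG F w).im := (F (ofComplex w)).im_pos

lemma GG_cont (F : ℍ → ℍ) (hF : Continuous F) {w : ℂ} (hw : 0 < w.im) :
    ContinuousAt (GG F) w := by
  have h1 : ContinuousAt (ofComplex : ℂ → ℍ) w := by
    rw [UpperHalfPlane.isOpenEmbedding_coe.isInducing.continuousAt_iff]
    have h2 := eventuallyEq_coe_comp_ofComplex hw
    exact (continuousAt_id).congr h2.symm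
  exact (UpperHalfPlane.continuous_coe.comp hF).continuousAt.comp h1

lemma GG_inj (F : ℍ → ℍ) (hF : Function.Injective F) {w w' : ℂ} (hw : 0 < w.im)
    (hw' : 0 < w'.im) (h : GG F w = GG F w') : w = w' := by
  have h1 : F (ofComplex w) = F (ofComplex w') := UpperHalfPlane.ext h
  have h2 := hF h1
  rw [ofComplex_apply_of_im_pos hw, ofComplex_apply_of_im_pos hw'] at h2
  exact congrArg (fun z : ℍ => (z : ℂ)) h2

lemma GG_lim (F : ℍ → ℍ) (g g' : SL(2, ℝ)) (hc : g 1 0 ≠ 0) (hc' : g' 1 0 ≠ 0)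
    (h : Csp F g g') (ε : ℝ) (hε : 0 < ε) :
    ∃ δ : ℝ, 0 < δ ∧ ∀ y : ℝ, 0 < y → y < δ →
      ‖GG F ((rr g : ℂ) + (y : ℂ) * Complex.I) - (rr g' : ℂ)‖ < ε := by
  obtain ⟨δ, hδ, h1⟩ := lim_csp F g g' hc hc' h ε hε
  refine ⟨δ, hδ, fun y hy hy' => ?_⟩
  have hi : ((rr g : ℂ) + (y : ℂ) * Complex.I).im = y := by simp
  have hr : ((rr g : ℂ) + (y : ℂ) * Complex.I).re = rr g := by simp
  have hp : 0 < ((rr g : ℂ) + (y : ℂ) * Complex.I).im := by rw [hi]; exact hy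
  unfold GG
  rw [ofComplex_apply_of_im_pos hp]
  exact h1 ⟨_, hp⟩ hr (by change ((rr g : ℂ) + (y : ℂ) * Complex.I).im < δ; rw [hi]; exact hy')

/-- The vertical path towards the real number `x`. -/
noncomputable def pathV (F : ℍ → ℍ) (x Y r : ℝ) (s : ℝ) : ℂ :=
  if 1 ≤ s then (r : ℂ) else GG F ((x : ℂ) + ((Y * (1 - s) : ℝ) : ℂ) * Complex.I)

lemma pathV_cont (F : ℍ → ℍ) (hF : Continuous F) (g g' : SL(2, ℝ)) (hc : g 1 0 ≠ 0)
    (hc' : g' 1 0 ≠ 0) (h : Csp F g g') (Y : ℝ) (hY : 0 < Y) :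
    ContinuousOn (pathV F (rr g) Y (rr g')) (Icc 0 1) := by
  intro s hs
  rcases lt_or_eq_of_le hs.2 with h1 | h1
  · refine ContinuousAt.continuousWithinAt ?_
    have e : (fun s : ℝ => GG F (((rr g : ℝ) : ℂ) + ((Y * (1 - s) : ℝ) : ℂ) * Complex.I)) =ᶠ[𝓝 s]
        pathV F (rr g) Y (rr g') := by
      filter_upwards [Iio_mem_nhds h1] with x hx
      unfold pathV
      rw [if_neg (not_le.2 hx)]
    refine ContinuousAt.congr ?_ e
    have hp : 0 < (((rr g : ℝ) : ℂ) + ((Y * (1 - s) : ℝ) : ℂ) * Complex.I).im := by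
      have : (((rr g : ℝ) : ℂ) + ((Y * (1 - s) : ℝ) : ℂ) * Complex.I).im = Y * (1 - s) := by
        rw [Complex.add_im, Complex.ofReal_im, Complex.im_ofReal_mul, Complex.I_im, mul_one,
          zero_add]
      rw [this]
      exact mul_pos hY (by linarith)
    refine ContinuousAt.comp (g := GG F) (GG_cont F hF hp) ?_
    fun_prop
  · subst h1
    rw [Metric.continuousWithinAt_iff]
    intro ε hε
    obtain ⟨δ, hδ, h2⟩ := GG_lim F g g' hc hc' h ε hε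
    refine ⟨δ / Y, by positivity, fun {x} hx hx' => ?_⟩
    have e1 : pathV F (rr g) Y (rr g') 1 = ((rr g' : ℝ) : ℂ) := by
      unfold pathV
      rw [if_pos le_rfl]
    rw [e1, dist_eq_norm]
    unfold pathV
    split_ifs with h3
    · rw [sub_self, norm_zero]
      exact hε
    · have hx1 : x < 1 := not_le.1 h3
      rw [Real.dist_eq, abs_sub_comm, abs_of_pos (by linarith : (0 : ℝ) < 1 - x),
        lt_div_iff₀ hY] at hx'
      exact h2 (Y * (1 - x)) (mul_pos hY (by linarith)) (by linarith)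

/-- The path from above `x₁` to above `x₂`. -/
noncomputable def zz (x₁ x₂ s : ℝ) : ℂ :=
  ((x₁ + (x₂ - x₁) * max 0 (min 1 (3 * s - 1)) : ℝ) : ℂ) +
    ((min 1 (min (3 * s) (3 * (1 - s))) : ℝ) : ℂ) * Complex.I

lemma zz_re (x₁ x₂ s : ℝ) : (zz x₁ x₂ s).re = x₁ + (x₂ - x₁) * max 0 (min 1 (3 * s - 1)) := by
  unfold zz
  rw [Complex.add_re, Complex.ofReal_re, Complex.re_ofReal_mul, Complex.I_re, mul_zero, add_zero]

lemma zz_im (x₁ x₂ s : ℝ) : (zz x₁ x₂ s).im = min 1 (min (3 * s) (3 * (1 - s))) := by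
  unfold zz
  rw [Complex.add_im, Complex.ofReal_im, Complex.im_ofReal_mul, Complex.I_im, mul_one, zero_add]

lemma zz_im_pos (x₁ x₂ : ℝ) {s : ℝ} (h0 : 0 < s) (h1 : s < 1) : 0 < (zz x₁ x₂ s).im := by
  rw [zz_im]
  refine lt_min one_pos (lt_min ?_ ?_) <;> linarith

lemma zz_left (x₁ x₂ : ℝ) {s : ℝ} (h1 : s ≤ 1 / 3) :
    zz x₁ x₂ s = (x₁ : ℂ) + ((3 * s : ℝ) : ℂ) * Complex.I := by
  unfold zz
  rw [max_eq_left ((min_le_right _ _).trans (by linarith)), mul_zero, add_zero,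
    min_eq_left (by linarith : 3 * s ≤ 3 * (1 - s)), min_eq_right (by linarith : 3 * s ≤ 1)]

lemma zz_right (x₁ x₂ : ℝ) {s : ℝ} (h1 : 2 / 3 ≤ s) :
    zz x₁ x₂ s = (x₂ : ℂ) + ((3 * (1 - s) : ℝ) : ℂ) * Complex.I := by
  unfold zz
  rw [min_eq_left (by linarith : (1 : ℝ) ≤ 3 * s - 1), max_eq_right zero_le_one, mul_one,
    add_sub_cancel, min_eq_right (by linarith : 3 * (1 - s) ≤ 3 * s),
    min_eq_right (by linarith : 3 * (1 - s) ≤ 1)]

lemma zz_cont (x₁ x₂ : ℝ) : Continuous (zz x₁ x₂) := by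
  unfold zz
  fun_prop

/-- The path over `zz`. -/
noncomputable def pathZ (F : ℍ → ℍ) (x₁ x₂ r₁ r₂ : ℝ) (s : ℝ) : ℂ :=
  if s ≤ 0 then (r₁ : ℂ) else if 1 ≤ s then (r₂ : ℂ) else GG F (zz x₁ x₂ s)

lemma pathZ_cont (F : ℍ → ℍ) (hF : Continuous F) (g₁ g₂ g₁' g₂' : SL(2, ℝ)) (h₁ : g₁ 1 0 ≠ 0)
    (h₂ : g₂ 1 0 ≠ 0) (h₁' : g₁' 1 0 ≠ 0) (h₂' : g₂' 1 0 ≠ 0) (hs₁ : Csp F g₁ g₁')
    (hs₂ : Csp F g₂ g₂') :
    ContinuousOn (pathZ F (rr g₁) (rr g₂) (rr g₁') (rr g₂')) (Icc 0 1) := by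
  intro s hs
  rcases eq_or_lt_of_le hs.1 with h0 | h0
  · subst h0
    rw [Metric.continuousWithinAt_iff]
    intro ε hε
    obtain ⟨δ, hδ, h2⟩ := GG_lim F g₁ g₁' h₁ h₁' hs₁ ε hε
    refine ⟨min (1 / 3) (δ / 3), by positivity, fun {x} hx hx' => ?_⟩
    have e1 : pathZ F (rr g₁) (rr g₂) (rr g₁') (rr g₂') 0 = ((rr g₁' : ℝ) : ℂ) := by
      unfold pathZ
      rw [if_pos le_rfl]
    rw [e1, dist_eq_norm]
    rw [Real.dist_eq, sub_zero, abs_of_nonneg hx.1] at hx'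
    have hx1 := lt_of_lt_of_le hx' (min_le_left _ _)
    have hx2 := lt_of_lt_of_le hx' (min_le_right _ _)
    unfold pathZ
    split_ifs with h3 h4
    · rw [sub_self, norm_zero]
      exact hε
    · exfalso
      linarith
    · rw [zz_left _ _ hx1.le]
      exact h2 (3 * x) (by linarith) (by linarith)
  rcases eq_or_lt_of_le hs.2 with h1 | h1
  · subst h1
    rw [Metric.continuousWithinAt_iff]
    intro ε hε
    obtain ⟨δ, hδ, h2⟩ := GG_lim F g₂ g₂' h₂ h₂' hs₂ ε hε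
    refine ⟨min (1 / 3) (δ / 3), by positivity, fun {x} hx hx' => ?_⟩
    have e1 : pathZ F (rr g₁) (rr g₂) (rr g₁') (rr g₂') 1 = ((rr g₂' : ℝ) : ℂ) := by
      unfold pathZ
      rw [if_neg (by norm_num), if_pos le_rfl]
    rw [e1, dist_eq_norm]
    rw [Real.dist_eq, abs_sub_comm, abs_of_nonneg (by linarith [hx.2] : (0 : ℝ) ≤ 1 - x)] at hx'
    have hx1 := lt_of_lt_of_le hx' (min_le_left _ _)
    have hx2 := lt_of_lt_of_le hx' (min_le_right _ _)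
    unfold pathZ
    split_ifs with h3 h4
    · exfalso
      linarith
    · rw [sub_self, norm_zero]
      exact hε
    · rw [zz_right _ _ (by linarith)]
      exact h2 (3 * (1 - x)) (by linarith [not_le.1 h4]) (by linarith)
  · refine ContinuousAt.continuousWithinAt ?_
    have e : (fun s : ℝ => GG F (zz (rr g₁) (rr g₂) s)) =ᶠ[𝓝 s]
        pathZ F (rr g₁) (rr g₂) (rr g₁') (rr g₂') := by
      filter_upwards [Iio_mem_nhds h1, Ioi_mem_nhds h0] with x hx hx'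
      unfold pathZ
      rw [if_neg (not_le.2 hx'), if_neg (not_le.2 hx)]
    refine ContinuousAt.congr ?_ e
    exact ContinuousAt.comp (g := GG F) (GG_cont F hF (zz_im_pos _ _ h0 h1))
      (zz_cont _ _).continuousAt

lemma conv_aux {a b t : ℝ} (ha : 0 < a) (hb : 0 < b) (h0 : 0 ≤ t) (h1 : t ≤ 1) :
    0 < (1 - t) * a + t * b := by
  rcases eq_or_lt_of_le h0 with h | h
  · rw [← h]
    linarith
  · have h2 := mul_pos h hb
    have h3 := mul_nonneg (sub_nonneg.2 h1) ha.le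
    linarith

lemma core (h1 : GoalC1) (F : ℍ → ℍ) (hF : Continuous F) (hi : Function.Injective F)
    (hinf : Csp F 1 1) (g₁ g₂ g₃ g₁' g₂' g₃' : SL(2, ℝ)) (h₁ : g₁ 1 0 ≠ 0)
    (h₂ : g₂ 1 0 ≠ 0) (h₃ : g₃ 1 0 ≠ 0) (h₁' : g₁' 1 0 ≠ 0) (h₂' : g₂' 1 0 ≠ 0)
    (h₃' : g₃' 1 0 ≠ 0) (hs₁ : Csp F g₁ g₁') (hs₂ : Csp F g₂ g₂') (hs₃ : Csp F g₃ g₃')
    (hout : (rr g₃ < rr g₁ ∧ rr g₃ < rr g₂) ∨ (rr g₁ < rr g₃ ∧ rr g₂ < rr g₃))
    (hb : rr g₁' < rr g₃') (hb' : rr g₃' < rr g₂') : False := by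
  have hZ := pathZ_cont F hF g₁ g₂ g₁' g₂' h₁ h₂ h₁' h₂' hs₁ hs₂
  -- bound
  obtain ⟨M, hM⟩ : ∃ M : ℝ, ∀ s ∈ Icc (0 : ℝ) 1,
      (pathZ F (rr g₁) (rr g₂) (rr g₁') (rr g₂') s).im ≤ M := by
    have hc : ContinuousOn (fun s => (pathZ F (rr g₁) (rr g₂) (rr g₁') (rr g₂') s).im)
        (Icc 0 1) := Complex.continuous_im.comp_continuousOn hZ
    obtain ⟨M, hM⟩ := isCompact_Icc.bddAbove_image hc
    exact ⟨M, fun s hs => hM ⟨s, hs, rfl⟩⟩
  obtain ⟨k, hk, hk'⟩ := hinf (max 1 M) (le_max_left _ _)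
  have hY : 0 < k + 1 := by linarith
  have hV := pathV_cont F hF g₃ g₃' h₃ h₃' hs₃ (k + 1) hY
  have hVlt : ∀ s : ℝ, s < 1 → pathV F (rr g₃) (k + 1) (rr g₃') s =
      GG F (((rr g₃ : ℝ) : ℂ) + (((k + 1) * (1 - s) : ℝ) : ℂ) * Complex.I) := by
    intro s hs
    unfold pathV
    rw [if_neg (not_le.2 hs)]
  have hV1 : pathV F (rr g₃) (k + 1) (rr g₃') 1 = ((rr g₃' : ℝ) : ℂ) := by
    unfold pathV
    rw [if_pos le_rfl]
  have hZ0 : pathZ F (rr g₁) (rr g₂) (rr g₁') (rr g₂') 0 = ((rr g₁' : ℝ) : ℂ) := by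
    unfold pathZ
    rw [if_pos le_rfl]
  have hZ1 : pathZ F (rr g₁) (rr g₂) (rr g₁') (rr g₂') 1 = ((rr g₂' : ℝ) : ℂ) := by
    unfold pathZ
    rw [if_neg (by norm_num), if_pos le_rfl]
  have hZm : ∀ s : ℝ, 0 < s → s < 1 → pathZ F (rr g₁) (rr g₂) (rr g₁') (rr g₂') s =
      GG F (zz (rr g₁) (rr g₂) s) := by
    intro s h0 h1
    unfold pathZ
    rw [if_neg (not_le.2 h0), if_neg (not_le.2 h1)]
  have hpim : ∀ s : ℝ, (((rr g₃ : ℝ) : ℂ) + (((k + 1) * (1 - s) : ℝ) : ℂ) * Complex.I).im =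
      (k + 1) * (1 - s) := by
    intro s
    rw [Complex.add_im, Complex.ofReal_im, Complex.im_ofReal_mul, Complex.I_im, mul_one,
      zero_add]
  have hpre : ∀ s : ℝ, (((rr g₃ : ℝ) : ℂ) + (((k + 1) * (1 - s) : ℝ) : ℂ) * Complex.I).re =
      rr g₃ := by
    intro s
    rw [Complex.add_re, Complex.ofReal_re, Complex.re_ofReal_mul, Complex.I_re, mul_zero,
      add_zero]
  obtain ⟨s, hs, s', hs', he⟩ := h1 (pathV F (rr g₃) (k + 1) (rr g₃'))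
    (pathZ F (rr g₁) (rr g₂) (rr g₁') (rr g₂')) (rr g₁') (rr g₃') (rr g₂') hV hZ hb hb' hV1
    (by
      intro s hs
      rcases lt_or_eq_of_le hs.2 with h | h
      · rw [hVlt s h]
        exact (GG_im_pos F _).le
      · rw [h, hV1, Complex.ofReal_im])
    (by
      intro s hs
      rcases eq_or_lt_of_le hs.1 with h | h
      · rw [← h, hZ0, Complex.ofReal_im]
      rcases eq_or_lt_of_le hs.2 with h' | h'
      · rw [h', hZ1, Complex.ofReal_im]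
      · rw [hZm s h h']
        exact (GG_im_pos F _).le)
    (by
      intro s hs
      refine lt_of_le_of_lt (hM s hs) ?_
      rw [hVlt 0 one_pos]
      have hp : 0 < (((rr g₃ : ℝ) : ℂ) + (((k + 1) * (1 - 0) : ℝ) : ℂ) * Complex.I).im := by
        rw [hpim 0]
        linarith
      have h3 := hk' ⟨_, hp⟩ (by
        change k < (((rr g₃ : ℝ) : ℂ) + (((k + 1) * (1 - 0) : ℝ) : ℂ) * Complex.I).im
        rw [hpim 0]
        linarith)
      rw [one_smul, inv_one, one_smul] at h3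
      unfold GG
      rw [ofComplex_apply_of_im_pos hp]
      exact lt_of_le_of_lt (le_max_right _ _) h3)
    hZ0 hZ1
  rcases lt_or_eq_of_le hs.2 with h | h
  · rw [hVlt s h] at he
    have hpos : 0 < (((rr g₃ : ℝ) : ℂ) + (((k + 1) * (1 - s) : ℝ) : ℂ) * Complex.I).im := by
      rw [hpim s]
      exact mul_pos hY (by linarith)
    have hG := GG_im_pos F (((rr g₃ : ℝ) : ℂ) + (((k + 1) * (1 - s) : ℝ) : ℂ) * Complex.I)
    rcases eq_or_lt_of_le hs'.1 with h' | h'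
    · rw [he, ← h', hZ0, Complex.ofReal_im] at hG
      exact lt_irrefl _ hG
    rcases eq_or_lt_of_le hs'.2 with h'' | h''
    · rw [he, h'', hZ1, Complex.ofReal_im] at hG
      exact lt_irrefl _ hG
    rw [hZm s' h' h''] at he
    have h5 := GG_inj F hi hpos (zz_im_pos _ _ h' h'') he
    have h6 := congrArg Complex.re h5
    rw [hpre, zz_re] at h6
    have h7 : 0 ≤ max 0 (min 1 (3 * s' - 1)) := le_max_left _ _
    have h8 : max 0 (min 1 (3 * s' - 1)) ≤ 1 := max_le zero_le_one (min_le_left _ _)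
    set t := max 0 (min 1 (3 * s' - 1)) with ht
    rcases hout with ⟨h9, h10⟩ | ⟨h9, h10⟩
    · have := conv_aux (sub_pos.2 h9) (sub_pos.2 h10) h7 h8
      linarith
    · have := conv_aux (sub_pos.2 h9) (sub_pos.2 h10) h7 h8
      linarith
  · rw [h, hV1] at he
    rcases eq_or_lt_of_le hs'.1 with h' | h'
    · rw [← h', hZ0] at he
      exact hb.ne' (by exact_mod_cast he)
    rcases eq_or_lt_of_le hs'.2 with h'' | h''
    · rw [h'', hZ1] at he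
      exact hb'.ne (by exact_mod_cast he)
    rw [hZm s' h' h''] at he
    have hG := GG_im_pos F (zz (rr g₁) (rr g₂) s')
    rw [← he, Complex.ofReal_im] at hG
    exact lt_irrefl _ hG

theorem goalC2 (h1 : GoalC1) : GoalC2 := by
  intro F hF hi hinf g₁ g₂ g₃ g₁' g₂' g₃' h₁ h₂ h₃ h₁' h₂' h₃' hs₁ hs₂ hs₃ h12 hout hcon
  obtain ⟨hmin, hmax⟩ := hcon
  have hout1 : (rr g₃ < rr g₁ ∧ rr g₃ < rr g₂) ∨ (rr g₁ < rr g₃ ∧ rr g₂ < rr g₃) := by
    rcases hout with h | h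
    · exact Or.inl ⟨h, h.trans h12⟩
    · exact Or.inr ⟨h12.trans h, h⟩
  have hout2 : (rr g₃ < rr g₂ ∧ rr g₃ < rr g₁) ∨ (rr g₂ < rr g₃ ∧ rr g₁ < rr g₃) := by
    rcases hout1 with ⟨a, b⟩ | ⟨a, b⟩
    · exact Or.inl ⟨b, a⟩
    · exact Or.inr ⟨b, a⟩
  rcases le_total (rr g₁') (rr g₂') with hle | hle
  · rw [min_eq_left hle] at hmin
    rw [max_eq_right hle] at hmax
    exact core h1 F hF hi hinf g₁ g₂ g₃ g₁' g₂' g₃' h₁ h₂ h₃ h₁' h₂' h₃' hs₁ hs₂ hs₃ hout1 hmin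
      hmax
  · rw [min_eq_right hle] at hmin
    rw [max_eq_left hle] at hmax
    exact core h1 F hF hi hinf g₂ g₁ g₃ g₂' g₁' g₃' h₂ h₁ h₃ h₂' h₁' h₃' hs₂ hs₁ hs₃ hout2 hmin
      hmax

end Pool.Agent.Helper56.PQ
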